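import Pool.Agent.helper55.RI.SpecV

/-!
# Project rg, module V8: the decoder for exponential time
-/

set_option autoImplicit false
set_option linter.unusedVariables false

namespace Pool.Agent.RI

open Pool.Agent.helper62 Prog Function Pool.Agent.helper81.PL

/-- falsification in terms of quantifiers over all words -/
theorem V8_fal (hV5 : V5_stmt) (i : W) (hlen : ∀ x, x.length < (GE i x).length) (p x : W) :
    falE i p x = true ↔ ∃ v : W, v.length < x.length ∧ (EW (fs p) v).length ≤ x.length ∧
      (EW (sn p) (EW (fs p) v) ≠ v ∨ ∀ y, GE i y ≠ EW (fs p) v) := by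
  have hw := hV5.2.2.2.2
  unfold falE
  rw [List.any_eq_true]
  constructor
  · rintro ⟨v, hv, h⟩
    rw [Bool.and_eq_true, decide_eq_true_iff, Bool.or_eq_true] at h
    refine ⟨v, (hw _ _).1 hv, h.1, ?_⟩
    rcases h.2 with h2 | h2
    · left
      simpa using h2
    · right
      intro y hy
      rw [List.all_eq_true] at h2
      have h3 := h2 y ((hw _ _).2 (by rw [← hy]; exact hlen y))
      simp [hy] at h3
  · rintro ⟨v, hv, h1, h2⟩
    refine ⟨v, (hw _ _).2 hv, ?_⟩
    rw [Bool.and_eq_true, decide_eq_true_iff, Bool.or_eq_true]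
    refine ⟨h1, ?_⟩
    rcases h2 with h2 | h2
    · left
      simpa using h2
    · right
      rw [List.all_eq_true]
      intro y _
      simpa using h2 y

theorem V8_mono (hV5 : V5_stmt) (i : W) (hlen : ∀ x, x.length < (GE i x).length) (p x x' : W)
    (hx : x.length ≤ x'.length) (h : falE i p x = true) : falE i p x' = true := by
  rw [V8_fal hV5 i hlen] at h ⊢
  obtain ⟨v, h1, h2, h3⟩ := h
  exact ⟨v, by omega, by omega, h3⟩

/-- good pairs -/
def V8_Gd (i p : W) : Prop :=
  ∀ v, EW (sn p) (EW (fs p) v) = v ∧ ∃ y, GE i y = EW (fs p) v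

theorem V8_good (hV5 : V5_stmt) (i : W) (hlen : ∀ x, x.length < (GE i x).length) (p : W) :
    V8_Gd i p ↔ ∀ x, falE i p x = false := by
  constructor
  · intro h x
    by_contra hc
    rw [Bool.not_eq_false, V8_fal hV5 i hlen] at hc
    obtain ⟨v, _, _, h3⟩ := hc
    obtain ⟨h4, y, hy⟩ := h v
    rcases h3 with h3 | h3
    · exact h3 h4
    · exact h3 y hy
  · intro h v
    by_contra hc
    have h1 := h (List.replicate (v.length + 1 + (EW (fs p) v).length) true)
    have h2 : falE i p (List.replicate (v.length + 1 + (EW (fs p) v).length) true) = true := by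
      rw [V8_fal hV5 i hlen]
      refine ⟨v, ?_, ?_, ?_⟩
      · rw [List.length_replicate]; omega
      · rw [List.length_replicate]; omega
      · by_contra hn
        push Not at hn
        exact hc ⟨hn.1, hn.2⟩
    rw [h1] at h2
    exact Bool.false_ne_true h2

/-- the first good element of a list -/
theorem V8_first {α : Type} (P : α → Prop) (L : List α) (a : α) (ha : a ∈ L) (hP : P a) :
    ∃ (L1 L2 : List α) (p : α), L = L1 ++ p :: L2 ∧ P p ∧ ∀ q ∈ L1, ¬ P q := by
  classical
  induction L with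
  | nil => exact absurd ha (List.not_mem_nil)
  | cons b L ih =>
    by_cases hb : P b
    · exact ⟨[], L, b, rfl, hb, fun q hq => absurd hq (List.not_mem_nil)⟩
    · have ha' : a ∈ L := by
        rcases List.mem_cons.1 ha with h | h
        · subst h; exact absurd hP hb
        · exact h
      obtain ⟨L1, L2, p, h1, h2, h3⟩ := ih ha'
      refine ⟨b :: L1, L2, p, by rw [h1]; rfl, h2, ?_⟩
      intro q hq
      rcases List.mem_cons.1 hq with h | h
      · subst h; exact hb
      · exact h3 q h

/-- a common time for finitely many pairs -/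
theorem V8_time (hV5 : V5_stmt) (i : W) (hlen : ∀ x, x.length < (GE i x).length) (L : List W)
    (h : ∀ q ∈ L, ¬ V8_Gd i q) :
    ∃ M : ℕ, ∀ q ∈ L, ∀ x : W, M ≤ x.length → falE i q x = true := by
  induction L with
  | nil => exact ⟨0, fun q hq => absurd hq (List.not_mem_nil)⟩
  | cons b L ih =>
    obtain ⟨M, hM⟩ := ih (fun q hq => h q (List.mem_cons_of_mem _ hq))
    have hb := h b List.mem_cons_self
    rw [V8_good hV5 i hlen] at hb
    push Not at hb
    obtain ⟨x0, hx0⟩ := hb
    rw [Bool.ne_false_iff] at hx0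
    refine ⟨max M x0.length, fun q hq x hx => ?_⟩
    rcases List.mem_cons.1 hq with h1 | h1
    · subst h1
      exact V8_mono hV5 i hlen q x0 x (le_trans (le_max_right _ _) hx) hx0
    · exact hM q h1 x (le_trans (le_max_left _ _) hx)

/-- the pair found by the decoder is eventually constant and good -/
theorem V8_kk (hV5 : V5_stmt) (i : W) (hlen : ∀ x, x.length < (GE i x).length) (a : W)
    (ha : V8_Gd i a) : ∃ (p : W) (M : ℕ), V8_Gd i p ∧ ∀ x : W, M ≤ x.length → kkE i x = p := by
  obtain ⟨L1, L2, p, h1, h2, h3⟩ := V8_first (V8_Gd i) (wds (a.length + 1)) a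
    ((hV5.2.2.2.2 _ _).2 (Nat.lt_succ_self _)) ha
  obtain ⟨M, hM⟩ := V8_time hV5 i hlen L1 h3
  refine ⟨p, max M a.length, h2, fun x hx => ?_⟩
  obtain ⟨L3, hL3⟩ := hV5.2.2.2.1 (a.length + 1) (x.length + 1)
    (Nat.succ_le_succ (le_trans (le_max_right _ _) hx))
  unfold kkE
  have h4 : wds (x.length + 1) = L1 ++ p :: (L2 ++ L3) := by
    rw [← hL3, h1, List.append_assoc, List.cons_append]
  have h5 : (wds (x.length + 1)).find? (fun p => !falE i p x) = some p := by
    rw [h4, List.find?_append]
    have h6 : L1.find? (fun p => !falE i p x) = none := by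
      rw [List.find?_eq_none]
      intro q hq
      rw [hM q hq x (le_trans (le_max_left _ _) hx)]
      simp
    have h7 : falE i p x = false := (V8_good hV5 i hlen p).1 h2 x
    rw [h6, List.find?_cons, h7]
    rfl
  rw [h5]
  rfl

theorem V8 (hG1 : G1_stmt) (hV4 : V4_stmt) (hV5 : V5_stmt) : V8_stmt := by
  rintro A i hinj hlen hT ⟨g, m, hg, hm, hgm, hgr⟩
  obtain ⟨g1, g2, g3, g4, g5, g6, g7⟩ := hG1
  obtain ⟨pPT, pinj, plen, strip, sPT, hs⟩ := K3
  -- a good pair
  obtain ⟨p1, hp1⟩ := hV4.2.2.2.1 g hg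
  obtain ⟨p2, hp2⟩ := hV4.2.2.2.1 m hm
  have ha : V8_Gd i (pr p1 p2) := by
    intro v
    rw [g4, g5, hp1, hp2]
    exact ⟨hgm v, hgr v⟩
  obtain ⟨p, M, hp, hkk⟩ := V8_kk hV5 i hlen _ ha
  -- polynomial bound
  have hmPT : PT (EW (sn p)) := hV4.2.2.2.2 _
  have hgPT : PT (EW (fs p)) := hV4.2.2.2.2 _
  have hGPT : PT (GE i) := by
    have h1 : PT (fun x : W => pr i x) :=
      PT.comp (g := fun p : W × W => pr p.1 p.2) (f := fun x => (i, x)) g3
        (PT.pair (PT.const i) PT.id)
    exact PT.comp (g := EW i) (f := fun x : W => pr i x) (hV4.2.2.2.2 i) h1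
  obtain ⟨c, hc⟩ := (PT.comp hmPT hGPT).size
  have hbd : ∀ (y : W) (n : ℕ), y.length ≤ n →
      (EW (sn p) (GE i y)).length ≤ c.eval (4 * n + 1) := by
    intro y n hn
    have h1 : sz (EW (sn p) (GE i y)) ≤ c.eval (sz y) := hc y
    have h2 := length_le_sz (EW (sn p) (GE i y))
    have h3 : sz y ≤ n * (3 + 1) + 1 := sz_list_le hn (fun b _ => sz_bool_le b)
    have h4 := Pool.Agent.H54.PT.pe_mono c h3
    have h5 : n * (3 + 1) + 1 = 4 * n + 1 := by ring
    rw [h5] at h4
    omega
  have hJ : PT (fun z : W => c.eval (4 * (z.length + M) + 1)) := by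
    have h1 : PT (fun z : W => z.length + M) := by fun_prop
    exact (B3_poly c).comp h1
  have hpr : PT (fun z : W => pr (fs z) (pre (c.eval (4 * (z.length + M) + 1)) z)) := by
    have h1 : PT (fun z : W => pre (c.eval (4 * (z.length + M) + 1)) z) :=
      PT.comp (g := fun p : ℕ × W => pre p.1 p.2)
        (f := fun z : W => (c.eval (4 * (z.length + M) + 1), z)) pPT (PT.pair hJ PT.id)
    exact PT.comp (g := fun p : W × W => pr p.1 p.2)
      (f := fun z : W => (fs z, pre (c.eval (4 * (z.length + M) + 1)) z)) g3 (PT.pair g1 h1)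
  refine ⟨fun z => EW (fs p) (pr (fs z) (pre (c.eval (4 * (z.length + M) + 1)) z)),
    fun v => strip (sn (EW (sn p) v)), PT.comp hgPT hpr, PT.comp sPT (PT.comp g2 hmPT), ?_, ?_⟩
  · intro x
    show strip (sn (EW (sn p) (EW (fs p) _))) = x
    rw [(hp _).1, g5, hs]
  · intro z
    show z ∈ cyl A ↔ EW (fs p) (pr (fs z) (pre (c.eval (4 * (z.length + M) + 1)) z)) ∈ A
    obtain ⟨h1, y, hy⟩ := hp (pr (fs z) (pre (c.eval (4 * (z.length + M) + 1)) z))
    have h2 : EW (sn p) (GE i y) = pr (fs z) (pre (c.eval (4 * (z.length + M) + 1)) z) := by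
      rw [hy, h1]
    have h3 : z.length + M < y.length := by
      by_contra hle
      have h4 := hbd y (z.length + M) (not_lt.1 hle)
      rw [h2, g7, plen] at h4
      omega
    have h5 : tauE i y = pr (fs z) (pre (c.eval (4 * (z.length + M) + 1)) z) := by
      unfold tauE
      rw [hkk y (by omega), h2]
    rw [← hy, ← hT y]
    unfold TE
    rw [h5, g4]
    have h6 := g6 z
    constructor
    · intro h7
      exact ⟨by omega, h7⟩
    · intro h7
      exact h7.2

end Pool.Agent.RI
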